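import Pool.Agent.H15.LU.Targets

/-!
# MP_812e67_ag, modules CTR and W4 (board lu_modules)
-/

set_option autoImplicit false

namespace Pool.Agent.H32.LU

open Filter Topology Asymptotics Polynomial Pool.Agent.H15.LU

theorem ctr : T_CTR := by
  intro c q0 q1 q2 e0 e1 e2 κ hκ hc he0 he1 he2 hq2 hc0 h0 h1 h2
  have hκ' : 0 < ‖κ‖ ^ 2 := by positivity
  have t1 : Tendsto (fun n => ‖e1 n‖ ^ 2 - 4 * (‖e0 n‖ * ‖e2 n‖)) atTop (𝓝 (‖κ‖ ^ 2)) := by
    have := ((he1.norm).pow 2).sub (((he0.norm).mul he2.norm).const_mul 4)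
    simpa using this
  have t2 : Tendsto (fun n => 256 * (‖e0 n‖ ^ 3 * ‖c n‖ ^ 3)) atTop (𝓝 0) := by
    have := (((he0.norm).pow 3).mul ((hc0.norm).pow 3)).const_mul 256
    simpa using this
  have t3 : Tendsto (fun n => ‖q2 n‖) atTop (𝓝 1) := by simpa using hq2.norm
  have ev1 := t1.eventually (lt_mem_nhds (show ‖κ‖ ^ 2 / 2 < ‖κ‖ ^ 2 by linarith))
  have ev2 := t2.eventually (gt_mem_nhds (show (0 : ℝ) < (‖κ‖ ^ 2 / 2) ^ 2 by positivity))
  have ev3 := t3.eventually (gt_mem_nhds (show (1 : ℝ) < 2 by norm_num))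
  obtain ⟨n, g1, g2, g3⟩ := (ev1.and (ev2.and ev3)).exists
  have cpos : 0 < ‖c n‖ := norm_pos_iff.mpr (hc n)
  set A := ‖q0 n‖ with hA
  set B := ‖q1 n‖ with hB
  set Cc := ‖c n‖ with hCc
  set E0 := ‖e0 n‖ with hE0
  set E1 := ‖e1 n‖ with hE1
  set E2 := ‖e2 n‖ with hE2
  have A0 : 0 ≤ A := norm_nonneg _
  have B0 : 0 ≤ B := norm_nonneg _
  have E00 : 0 ≤ E0 := norm_nonneg _
  have E20 : 0 ≤ E2 := norm_nonneg _
  have n0 : A ^ 2 = Cc ^ 9 * E0 := by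
    have := congrArg norm (h0 n); simpa using this
  have n1 : 2 * A * B = Cc ^ 6 * E1 := by
    have := congrArg norm (h1 n); simpa using this
  have n2 : B ^ 2 ≤ Cc ^ 3 * E2 + 4 * A := by
    have e : q1 n ^ 2 = c n ^ 3 * e2 n - 2 * q0 n * q2 n := by rw [← h2 n]; ring
    have := congrArg norm e
    have h3 : ‖c n ^ 3 * e2 n - 2 * q0 n * q2 n‖ ≤ ‖c n ^ 3 * e2 n‖ + ‖2 * q0 n * q2 n‖ :=
      norm_sub_le _ _
    simp only [norm_mul, norm_pow, Complex.norm_ofNat] at this h3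
    have h4 : 2 * A * ‖q2 n‖ ≤ 2 * A * 2 := by
      apply mul_le_mul_of_nonneg_left g3.le; positivity
    rw [← hB, ← hCc, ← hE2, ← hA] at *
    linarith
  have m1 : Cc ^ 12 * E1 ^ 2 = 4 * (Cc ^ 9 * E0) * B ^ 2 := by
    rw [← n0]
    have : (2 * A * B) ^ 2 = (Cc ^ 6 * E1) ^ 2 := by rw [n1]
    nlinarith [this]
  have m2 : Cc ^ 12 * E1 ^ 2 ≤ 4 * (Cc ^ 9 * E0) * (Cc ^ 3 * E2 + 4 * A) := by
    rw [m1]; apply mul_le_mul_of_nonneg_left n2; positivity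
  have m3 : Cc ^ 3 * (E1 ^ 2 - 4 * (E0 * E2)) ≤ 16 * E0 * A := by
    have h9 : 0 < Cc ^ 9 := by positivity
    have : Cc ^ 9 * (Cc ^ 3 * (E1 ^ 2 - 4 * (E0 * E2))) ≤ Cc ^ 9 * (16 * E0 * A) := by
      nlinarith [m2]
    exact le_of_mul_le_mul_left this h9
  have m4 : Cc ^ 3 * (‖κ‖ ^ 2 / 2) ≤ 16 * E0 * A := by
    refine le_trans ?_ m3
    apply mul_le_mul_of_nonneg_left g1.le; positivity
  have m5 : (Cc ^ 3 * (‖κ‖ ^ 2 / 2)) ^ 2 ≤ (16 * E0 * A) ^ 2 := by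
    apply pow_le_pow_left₀ _ m4; positivity
  have m6 : (16 * E0 * A) ^ 2 = Cc ^ 6 * (256 * (E0 ^ 3 * Cc ^ 3)) := by
    rw [mul_pow, n0]; ring
  rw [m6, mul_pow, ← pow_mul] at m5
  have h6 : 0 < Cc ^ 6 := by positivity
  have m7 : (‖κ‖ ^ 2 / 2) ^ 2 ≤ 256 * (E0 ^ 3 * Cc ^ 3) := le_of_mul_le_mul_left m5 h6
  linarith

theorem w4 : T_W4 := by
  refine ⟨1 / 100, by norm_num, ?_⟩
  intro c Q R hc hQ hR
  have hq : ∀ i, ‖(Q.coeff i).coeff 0 - (Q₀.coeff i).coeff 0‖ ≤ 1 / 100 := fun i => hQ.2 i 0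
  have hr : ‖(R.coeff 4).coeff 0 - (R₀.coeff 4).coeff 0‖ ≤ 1 / 100 := hR.2 4 0
  have c0 : ∀ i, i ≠ 2 → (Q₀.coeff i).coeff 0 = 0 := by
    intro i hi; simp [Q₀, coeff_X_pow, hi]
  have c2 : (Q₀.coeff 2).coeff 0 = 1 := by simp [Q₀]
  have r4 : (R₀.coeff 4).coeff 0 = 0 := by
    unfold R₀
    rw [coeff_C_mul, coeff_X, if_neg (by norm_num), mul_zero, coeff_zero]
  have q0 := hq 0
  have q1 := hq 1
  have q2 := hq 2
  have q3 := hq 3
  have q4 := hq 4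
  rw [c0 0 (by norm_num), sub_zero] at q0
  rw [c0 1 (by norm_num), sub_zero] at q1
  rw [c2] at q2
  rw [c0 3 (by norm_num), sub_zero] at q3
  rw [c0 4 (by norm_num), sub_zero] at q4
  rw [r4, sub_zero] at hr
  have key : ((ww c Q R).coeff 4).coeff 0 =
      ((Q.coeff 2).coeff 0) ^ 2 + 2 * ((Q.coeff 0).coeff 0 * (Q.coeff 4).coeff 0) +
      2 * ((Q.coeff 1).coeff 0 * (Q.coeff 3).coeff 0) - 4 * (c * (R.coeff 4).coeff 0) := by
    unfold ww
    rw [coeff_sub, coeff_C_mul, coeff_sub, pow_two, coeff_mul]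
    have : (Finset.HasAntidiagonal.antidiagonal 4 : Finset (ℕ × ℕ)) =
      {(0, 4), (1, 3), (2, 2), (3, 1), (4, 0)} := by decide
    rw [this]
    rw [Finset.sum_insert (by decide), Finset.sum_insert (by decide),
      Finset.sum_insert (by decide), Finset.sum_insert (by decide), Finset.sum_singleton]
    have h4 : (4 * (X + C c) : ℂ[X]).coeff 0 = 4 * c := by
      rw [coeff_zero_eq_eval_zero]; simp
    simp only [coeff_add, mul_coeff_zero, h4]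
    ring
  set a := (Q.coeff 2).coeff 0 with ha
  have na : ‖a‖ ≤ 101 / 100 := by
    have : a = (a - 1) + 1 := by ring
    rw [this]
    refine (norm_add_le _ _).trans ?_
    rw [norm_one]; linarith
  have hane : a ≠ 0 := by
    intro h; rw [h] at q2; norm_num at q2
  refine ⟨?_, hane⟩
  rw [key]
  intro hz
  have e1 : (1 : ℂ) = -((a - 1) * (a + 1)) - 2 * ((Q.coeff 0).coeff 0 * (Q.coeff 4).coeff 0) -
      2 * ((Q.coeff 1).coeff 0 * (Q.coeff 3).coeff 0) + 4 * (c * (R.coeff 4).coeff 0) := by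
    linear_combination hz
  have e2 := congrArg norm e1
  rw [norm_one] at e2
  have b1 : ‖(a - 1) * (a + 1)‖ ≤ 1 / 100 * (201 / 100) := by
    rw [norm_mul]
    apply mul_le_mul q2 _ (norm_nonneg _) (by norm_num)
    refine (norm_add_le _ _).trans ?_
    rw [norm_one]; linarith
  have b2 : ‖(2 : ℂ) * ((Q.coeff 0).coeff 0 * (Q.coeff 4).coeff 0)‖ ≤ 2 * (1 / 100 * (1 / 100)) := by
    rw [norm_mul, norm_mul, Complex.norm_ofNat]
    apply mul_le_mul_of_nonneg_left _ (by norm_num)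
    exact mul_le_mul q0 q4 (norm_nonneg _) (by norm_num)
  have b3 : ‖(2 : ℂ) * ((Q.coeff 1).coeff 0 * (Q.coeff 3).coeff 0)‖ ≤ 2 * (1 / 100 * (1 / 100)) := by
    rw [norm_mul, norm_mul, Complex.norm_ofNat]
    apply mul_le_mul_of_nonneg_left _ (by norm_num)
    exact mul_le_mul q1 q3 (norm_nonneg _) (by norm_num)
  have b4 : ‖(4 : ℂ) * (c * (R.coeff 4).coeff 0)‖ ≤ 4 * (1 / 100 * (1 / 100)) := by
    rw [norm_mul, norm_mul, Complex.norm_ofNat]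
    apply mul_le_mul_of_nonneg_left _ (by norm_num)
    exact mul_le_mul hc hr (norm_nonneg _) (by norm_num)
  have t : ‖-((a - 1) * (a + 1)) - 2 * ((Q.coeff 0).coeff 0 * (Q.coeff 4).coeff 0) -
      2 * ((Q.coeff 1).coeff 0 * (Q.coeff 3).coeff 0) + 4 * (c * (R.coeff 4).coeff 0)‖ ≤
      ‖(a - 1) * (a + 1)‖ + ‖(2 : ℂ) * ((Q.coeff 0).coeff 0 * (Q.coeff 4).coeff 0)‖ +
      ‖(2 : ℂ) * ((Q.coeff 1).coeff 0 * (Q.coeff 3).coeff 0)‖ +
      ‖(4 : ℂ) * (c * (R.coeff 4).coeff 0)‖ := by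
    refine (norm_add_le _ _).trans ?_
    gcongr
    refine (norm_sub_le _ _).trans ?_
    gcongr
    refine (norm_sub_le _ _).trans ?_
    rw [norm_neg]
  linarith

end Pool.Agent.H32.LU
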