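import Pool.Agent.H15.LU.Targets

/-!
# MP_812e67_ag, module INV (board lu_modules)
-/

set_option autoImplicit false

namespace Pool.Agent.H32.LU

open Filter Topology Asymptotics Polynomial Pool.Agent.H15.LU

theorem inv_ : T_INV := by
  intro χ hχ
  obtain ⟨han, h0, hbij⟩ := hχ
  let A : (Fin 3 → ℂ) ≃L[ℂ] (Fin 3 → ℂ) :=
    ContinuousLinearEquiv.ofBijective (fderiv ℂ χ 0)
      (LinearMap.ker_eq_bot.mpr hbij.1) (LinearMap.range_eq_top.mpr hbij.2)
  have hA : (A : (Fin 3 → ℂ) →L[ℂ] (Fin 3 → ℂ)) = fderiv ℂ χ 0 := by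
    ext v; rfl
  have hs : HasStrictFDerivAt χ (A : (Fin 3 → ℂ) →L[ℂ] (Fin 3 → ℂ)) 0 := by
    rw [hA]; exact han.hasStrictFDerivAt
  let R := hs.toOpenPartialHomeomorph χ
  have hx : (0 : Fin 3 → ℂ) ∈ R.source := hs.mem_toOpenPartialHomeomorph_source
  have hinv : AnalyticAt ℂ (hs.localInverse χ A 0) (χ 0) :=
    R.analyticAt_symm' hx han hA.symm
  have hd := hs.to_localInverse
  have hl := hs.eventually_left_inverse
  have hr := hs.eventually_right_inverse
  have hi : hs.localInverse χ A 0 (χ 0) = 0 := hs.localInverse_apply_image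
  rw [h0] at hinv hd hr hi
  refine ⟨hs.localInverse χ A 0, ⟨hinv, hi, ?_⟩, hr, hl⟩
  rw [hd.hasFDerivAt.fderiv]
  exact A.symm.bijective

end Pool.Agent.H32.LU
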