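import Pool.Agent.H32.LU.PUA

/-!
# MP_812e67_ag, module NDG (board lu_modules)
-/

set_option autoImplicit false

namespace Pool.Agent.H32.LU

open Filter Topology Asymptotics Polynomial Pool.Agent.H15.LU

theorem continuous_evalEval (P : ℂ[X][X]) : Continuous fun p : ℂ × ℂ => P.evalEval p.1 p.2 := by
  have h : (fun p : ℂ × ℂ => P.evalEval p.1 p.2) = fun p : ℂ × ℂ =>
      ∑ r ∈ Finset.range ((taylor 0 P).natDegree + 1),
        ((taylor 0 P).coeff r).eval p.1 * (p.2 - (0 : ℂ[X]).eval p.1) ^ r := by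
    funext p
    exact evalEval_taylor P 0 p.2 p.1
  rw [h]
  apply continuous_finset_sum
  intro r _
  apply Continuous.mul
  · exact ((taylor 0 P).coeff r).continuous.comp continuous_fst
  · apply Continuous.pow
    simp only [eval_zero, sub_zero]
    exact continuous_snd

theorem eval_split (p : ℂ[X]) (y : ℂ) : p.eval y = p.coeff 0 + y * p.divX.eval y := by
  conv_lhs => rw [← divX_mul_X_add p]
  simp only [eval_add, eval_mul, eval_X, eval_C]
  ring

theorem evalEval_split (P : ℂ[X][X]) (x y : ℂ) :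
    P.evalEval y x = (P.coeff 0).eval y + x * P.divX.evalEval y x := by
  conv_lhs => rw [← divX_mul_X_add P]
  simp only [evalEval, eval_add, eval_mul, eval_X, eval_C]
  ring

theorem Q_split (P : ℂ[X][X]) (x y : ℂ) : P.evalEval y x = (P.coeff 0).coeff 0 +
    y * (P.coeff 0).divX.eval y + x * P.divX.evalEval y x := by
  rw [evalEval_split, eval_split (P.coeff 0)]

theorem R_split (P : ℂ[X][X]) (x y : ℂ) : P.evalEval y x = (P.coeff 0).coeff 0 +
    (P.coeff 0).coeff 1 * y + (P.coeff 1).coeff 0 * x +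
    (y * y * (P.coeff 0).divX.divX.eval y + x * y * (P.coeff 1).divX.eval y +
      x * x * P.divX.divX.evalEval y x) := by
  rw [Q_split, eval_split (P.coeff 0).divX, Q_split P.divX, coeff_divX, coeff_divX]
  ring

section

variable {l : Filter ℂ} {x y : ℂ → ℂ}

theorem tendsto_Q (P : ℂ[X][X]) (h0 : (P.coeff 0).coeff 0 = 0) (hx : Tendsto x l (𝓝 0))
    (hy : Tendsto y l (𝓝 0)) (hx1 : Tendsto (fun s => x s / s) l (𝓝 0))
    (hy1 : Tendsto (fun s => y s / s) l (𝓝 0)) :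
    Tendsto (fun s => P.evalEval (y s) (x s) / s) l (𝓝 0) := by
  have t1 : Tendsto (fun s => (P.coeff 0).divX.eval (y s)) l (𝓝 ((P.coeff 0).divX.eval 0)) :=
    ((P.coeff 0).divX.continuous.tendsto 0).comp hy
  have t2 : Tendsto (fun s => P.divX.evalEval (y s) (x s)) l (𝓝 (P.divX.evalEval 0 0)) :=
    ((continuous_evalEval P.divX).tendsto (0, 0)).comp (hy.prodMk_nhds hx)
  have t := (hy1.mul t1).add (hx1.mul t2)
  rw [zero_mul, zero_mul, add_zero] at t
  refine t.congr fun s => ?_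
  rw [Q_split P, h0]
  ring

theorem tendsto_R (P : ℂ[X][X]) (h0 : (P.coeff 0).coeff 0 = 0) (h1 : (P.coeff 0).coeff 1 = 0)
    (h2 : (P.coeff 1).coeff 0 = 0) (hx : Tendsto x l (𝓝 0))
    (hy : Tendsto y l (𝓝 0)) (hx1 : Tendsto (fun s => x s / s) l (𝓝 0))
    (hy1 : Tendsto (fun s => y s / s) l (𝓝 0)) :
    Tendsto (fun s => P.evalEval (y s) (x s) / s ^ 2) l (𝓝 0) := by
  have t1 : Tendsto (fun s => (P.coeff 0).divX.divX.eval (y s)) l
      (𝓝 ((P.coeff 0).divX.divX.eval 0)) :=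
    ((P.coeff 0).divX.divX.continuous.tendsto 0).comp hy
  have t3 : Tendsto (fun s => (P.coeff 1).divX.eval (y s)) l
      (𝓝 ((P.coeff 1).divX.eval 0)) :=
    ((P.coeff 1).divX.continuous.tendsto 0).comp hy
  have t2 : Tendsto (fun s => P.divX.divX.evalEval (y s) (x s)) l
      (𝓝 (P.divX.divX.evalEval 0 0)) :=
    ((continuous_evalEval P.divX.divX).tendsto (0, 0)).comp (hy.prodMk_nhds hx)
  have t := (((hy1.mul hy1).mul t1).add ((hx1.mul hy1).mul t3)).add ((hx1.mul hx1).mul t2)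
  simp only [zero_mul, add_zero] at t
  refine t.congr fun s => ?_
  rw [R_split P, h0, h1, h2]
  ring

end

theorem G30_isBigO (b d : ℂ) : (fun q => G30 b d q) =O[𝓝 0] fun q : Fin 3 → ℂ => ‖q‖ ^ 2 := by
  apply IsBigO.of_bound (3 + ‖b‖ + ‖d‖)
  have h1 : ∀ᶠ q : Fin 3 → ℂ in 𝓝 0, ‖q‖ < 1 := by
    have : Metric.ball (0 : Fin 3 → ℂ) 1 ∈ 𝓝 0 := Metric.ball_mem_nhds _ one_pos
    filter_upwards [this] with q hq
    simpa using hq
  filter_upwards [h1] with q hq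
  have c0 : ‖q 0‖ ≤ ‖q‖ := norm_le_pi_norm q 0
  have c1 : ‖q 1‖ ≤ ‖q‖ := norm_le_pi_norm q 1
  have c2 : ‖q 2‖ ≤ ‖q‖ := norm_le_pi_norm q 2
  have hn : (0 : ℝ) ≤ ‖q‖ := norm_nonneg _
  have b0 : ‖q 0 ^ 3‖ ≤ ‖q‖ ^ 2 := by
    rw [norm_pow]
    calc ‖q 0‖ ^ 3 ≤ ‖q‖ ^ 3 := by gcongr
      _ ≤ ‖q‖ ^ 2 := pow_le_pow_of_le_one hn hq.le (by norm_num)
  have b1 : ‖b * q 0 ^ 2 * q 1 ^ 3‖ ≤ ‖b‖ * ‖q‖ ^ 2 := by
    rw [norm_mul, norm_mul, norm_pow, norm_pow, mul_assoc]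
    apply mul_le_mul_of_nonneg_left _ (norm_nonneg _)
    calc ‖q 0‖ ^ 2 * ‖q 1‖ ^ 3 ≤ ‖q‖ ^ 2 * ‖q‖ ^ 3 := by gcongr
      _ = ‖q‖ ^ 5 := by ring
      _ ≤ ‖q‖ ^ 2 := pow_le_pow_of_le_one hn hq.le (by norm_num)
  have b2 : ‖q 1 ^ 9‖ ≤ ‖q‖ ^ 2 := by
    rw [norm_pow]
    calc ‖q 1‖ ^ 9 ≤ ‖q‖ ^ 9 := by gcongr
      _ ≤ ‖q‖ ^ 2 := pow_le_pow_of_le_one hn hq.le (by norm_num)
  have b3 : ‖d * q 0 * q 1 ^ 7‖ ≤ ‖d‖ * ‖q‖ ^ 2 := by
    rw [norm_mul, norm_mul, norm_pow, mul_assoc]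
    apply mul_le_mul_of_nonneg_left _ (norm_nonneg _)
    calc ‖q 0‖ * ‖q 1‖ ^ 7 ≤ ‖q‖ * ‖q‖ ^ 7 := by gcongr
      _ = ‖q‖ ^ 8 := by ring
      _ ≤ ‖q‖ ^ 2 := pow_le_pow_of_le_one hn hq.le (by norm_num)
  have b4 : ‖q 2 ^ 2‖ ≤ ‖q‖ ^ 2 := by
    rw [norm_pow]; gcongr
  have t : ‖G30 b d q‖ ≤ ‖q 0 ^ 3‖ + ‖b * q 0 ^ 2 * q 1 ^ 3‖ + ‖q 1 ^ 9‖ + ‖d * q 0 * q 1 ^ 7‖ +
      ‖q 2 ^ 2‖ := by
    unfold G30
    refine (norm_add_le _ _).trans ?_
    gcongr
    refine (norm_add_le _ _).trans ?_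
    gcongr
    refine (norm_add_le _ _).trans ?_
    gcongr
    exact norm_add_le _ _
  rw [Real.norm_of_nonneg (by positivity : (0 : ℝ) ≤ ‖q‖ ^ 2)]
  linarith

theorem linear_zero {c b d : ℂ} {Q R : ℂ[X][X]} {χ : (Fin 3 → ℂ) → Fin 3 → ℂ}
    (h : Dat c Q R b d χ) : (Q.coeff 0).coeff 0 = 0 ∧ (R.coeff 0).coeff 0 = 0 ∧
      (R.coeff 0).coeff 1 = 0 ∧ (R.coeff 1).coeff 0 = 0 := by
  obtain ⟨⟨han, h0, hbij⟩, hO⟩ := h
  have hχ : χ =O[𝓝 0] fun p : Fin 3 → ℂ => p := by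
    have := han.differentiableAt.hasFDerivAt.isBigO_sub
    simpa [h0] using this
  have hχ0 : Tendsto χ (𝓝 0) (𝓝 0) := by
    have := han.continuousAt.tendsto
    rwa [h0] at this
  have hG : (fun p => G30 b d (χ p)) =O[𝓝 0] fun p : Fin 3 → ℂ => ‖p‖ ^ 2 := by
    have h1 := (G30_isBigO b d).comp_tendsto hχ0
    exact h1.trans (hχ.norm_norm.pow 2)
  have h10 : (fun p : Fin 3 → ℂ => ‖p‖ ^ 10) =O[𝓝 0] fun p : Fin 3 → ℂ => ‖p‖ ^ 2 := by
    apply IsBigO.of_bound 1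
    have h1 : ∀ᶠ q : Fin 3 → ℂ in 𝓝 0, ‖q‖ < 1 := by
      have : Metric.ball (0 : Fin 3 → ℂ) 1 ∈ 𝓝 0 := Metric.ball_mem_nhds _ one_pos
      filter_upwards [this] with q hq
      simpa using hq
    filter_upwards [h1] with q hq
    rw [one_mul, Real.norm_of_nonneg (by positivity), Real.norm_of_nonneg (by positivity)]
    exact pow_le_pow_of_le_one (norm_nonneg _) hq.le (by norm_num)
  have hM : (fun p => nf c Q R p) =O[𝓝 0] fun p : Fin 3 → ℂ => ‖p‖ ^ 2 := by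
    have := (hO.trans h10).add hG
    refine this.congr_left fun p => ?_
    ring
  have M0 : nf c Q R 0 = 0 := by
    obtain ⟨C, hC⟩ := hM.bound
    have := hC.self_of_nhds
    simpa using this
  have line : ∀ e : Fin 3 → ℂ, Tendsto (fun s : ℂ => nf c Q R (s • e) / s) (𝓝[≠] 0) (𝓝 0) := by
    intro e
    have t0 : Tendsto (fun s : ℂ => s • e) (𝓝 0) (𝓝 0) := by
      have : Continuous fun s : ℂ => s • e := by fun_prop
      simpa using this.tendsto 0
    have h1 := hM.comp_tendsto t0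
    have h2 : (fun s : ℂ => nf c Q R (s • e)) =O[𝓝 0] fun s : ℂ => s ^ 2 := by
      refine h1.trans ?_
      apply IsBigO.of_bound (‖e‖ ^ 2)
      filter_upwards with s
      simp only [Function.comp, norm_smul, norm_pow, norm_mul, norm_norm]
      rw [mul_pow]; linarith
    have h3 : (fun s : ℂ => nf c Q R (s • e)) =o[𝓝 0] fun s : ℂ => s := by
      refine h2.trans_isLittleO ?_
      simpa using (isLittleO_pow_pow (𝕜 := ℂ) (show 1 < 2 by norm_num))
    exact h3.tendsto_div_nhds_zero.mono_left nhdsWithin_le_nhds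
  have R00 : (R.coeff 0).coeff 0 = 0 := by
    have := M0
    unfold nf at this
    rw [Q_split Q, R_split R] at this
    simpa using this
  have tid : Tendsto (fun s : ℂ => s) (𝓝[≠] 0) (𝓝 0) := nhdsWithin_le_nhds
  have Q00 : (Q.coeff 0).coeff 0 = 0 := by
    have t1 := line ![0, 0, 1]
    have t2 : Tendsto (fun s : ℂ => c * s + (Q.coeff 0).coeff 0) (𝓝[≠] 0)
        (𝓝 (c * 0 + (Q.coeff 0).coeff 0)) := (tid.const_mul c).add_const _
    rw [mul_zero, zero_add] at t2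
    refine tendsto_nhds_unique (t2.congr' ?_) t1
    filter_upwards [self_mem_nhdsWithin] with s hs
    have hs' : s ≠ 0 := hs
    unfold nf
    rw [Q_split Q, R_split R, R00]
    simp
    field_simp
  have R10 : (R.coeff 1).coeff 0 = 0 := by
    have t1 := line ![1, 0, 0]
    have t3 : Tendsto (fun s : ℂ => R.divX.divX.evalEval 0 s) (𝓝[≠] 0)
        (𝓝 (R.divX.divX.evalEval 0 0)) :=
      ((continuous_evalEval R.divX.divX).tendsto (0, 0)).comp
        ((tendsto_const_nhds).prodMk_nhds tid)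
    have t2 := (tid.mul t3).const_add ((R.coeff 1).coeff 0)
    rw [zero_mul, add_zero] at t2
    refine tendsto_nhds_unique (t2.congr' ?_) t1
    filter_upwards [self_mem_nhdsWithin] with s hs
    have hs' : s ≠ 0 := hs
    unfold nf
    rw [R_split R, R00]
    simp
    field_simp
  have R01 : (R.coeff 0).coeff 1 = 0 := by
    have t1 := line ![0, 1, 0]
    have t3 : Tendsto (fun s : ℂ => (R.coeff 0).divX.divX.eval s) (𝓝[≠] 0)
        (𝓝 ((R.coeff 0).divX.divX.eval 0)) :=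
      ((R.coeff 0).divX.divX.continuous.tendsto 0).comp tid
    have t2 := (tid.mul t3).const_add ((R.coeff 0).coeff 1)
    rw [zero_mul, add_zero] at t2
    refine tendsto_nhds_unique (t2.congr' ?_) t1
    filter_upwards [self_mem_nhdsWithin] with s hs
    have hs' : s ≠ 0 := hs
    unfold nf
    rw [R_split R, R00]
    simp
    field_simp
  exact ⟨Q00, R00, R01, R10⟩

theorem ndg : T_NDG := by
  intro c Q R b d χ ψ hc hDat hInv hdet
  obtain ⟨Q00, R00, R01, R10⟩ := linear_zero hDat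
  obtain ⟨_, hO⟩ := hDat
  obtain ⟨⟨hψan, hψ0, hψbij⟩, hright, _⟩ := hInv
  set D := fderiv ℂ ψ 0 with hD
  -- a kernel vector of the projection
  have hv : ∃ v : Fin 3 → ℂ, v ≠ 0 ∧ v 2 = 0 ∧ D v 0 = 0 ∧ D v 1 = 0 := by
    have lin : ∀ X Y : ℂ, ∀ i, D ![X, Y, 0] i = X * D ![1, 0, 0] i + Y * D ![0, 1, 0] i := by
      intro X Y i
      have e : (![X, Y, 0] : Fin 3 → ℂ) = X • ![1, 0, 0] + Y • ![0, 1, 0] := by
        ext j; fin_cases j <;> simp
      rw [e, map_add, map_smul, map_smul]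
      simp
    by_cases h0 : D ![1, 0, 0] 0 = 0 ∧ D ![0, 1, 0] 0 = 0
    · by_cases h1 : D ![1, 0, 0] 1 = 0 ∧ D ![0, 1, 0] 1 = 0
      · refine ⟨![1, 0, 0], ?_, rfl, h0.1, h1.1⟩
        intro h; have := congrFun h 0; simp at this
      · refine ⟨![D ![0, 1, 0] 1, -D ![1, 0, 0] 1, 0], ?_, rfl, ?_, ?_⟩
        · intro h
          apply h1
          have e0 := congrFun h 0
          have e1 := congrFun h 1
          simp at e0 e1
          exact ⟨e1, e0⟩
        · rw [lin, h0.1, h0.2]; ring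
        · rw [lin]; ring
    · refine ⟨![D ![0, 1, 0] 0, -D ![1, 0, 0] 0, 0], ?_, rfl, ?_, ?_⟩
      · intro h
        apply h0
        have e0 := congrFun h 0
        have e1 := congrFun h 1
        simp at e0 e1
        exact ⟨e1, e0⟩
      · rw [lin]; ring
      · rw [lin]; linear_combination -hdet
  obtain ⟨v, hv0, hv2, hw0, hw1⟩ := hv
  have hμ : D v 2 ≠ 0 := by
    intro h
    apply hv0
    apply hψbij.1
    rw [map_zero]
    ext i; fin_cases i <;> simp [hw0, hw1, h]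
  -- the path
  have hder : HasDerivAt (fun s : ℂ => ψ (s • v)) (D v) 0 := by
    have h1 : HasFDerivAt ψ D ((0 : ℂ) • v) := by
      rw [zero_smul]; exact hψan.differentiableAt.hasFDerivAt
    have h2 : HasDerivAt (fun s : ℂ => s • v) v 0 := by
      simpa using (hasDerivAt_id (0 : ℂ)).smul_const v
    exact h1.comp_hasDerivAt 0 h2
  have hslope : Tendsto (fun s : ℂ => s⁻¹ • ψ (s • v)) (𝓝[≠] 0) (𝓝 (D v)) := by
    have := hder.tendsto_slope_zero
    simpa [hψ0] using this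
  have comp : ∀ i, Tendsto (fun s : ℂ => ψ (s • v) i / s) (𝓝[≠] 0) (𝓝 (D v i)) := by
    intro i
    have := (tendsto_pi_nhds.mp hslope) i
    refine this.congr fun s => ?_
    simp [div_eq_inv_mul]
  have hcont : Tendsto (fun s : ℂ => ψ (s • v)) (𝓝[≠] 0) (𝓝 0) := by
    have := hder.continuousAt.tendsto.mono_left (nhdsWithin_le_nhds (s := {0}ᶜ))
    simpa [hψ0] using this
  have cz : ∀ i, Tendsto (fun s : ℂ => ψ (s • v) i) (𝓝[≠] 0) (𝓝 0) := by
    intro i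
    simpa using (tendsto_pi_nhds.mp hcont) i
  have x1 := comp 0
  have y1 := comp 1
  have z1 := comp 2
  rw [hw0] at x1
  rw [hw1] at y1
  have tQ := tendsto_Q Q Q00 (cz 0) (cz 1) x1 y1
  have tR := tendsto_R R R00 R01 R10 (cz 0) (cz 1) x1 y1
  have lim1 : Tendsto (fun s : ℂ => nf c Q R (ψ (s • v)) / s ^ 2) (𝓝[≠] 0)
      (𝓝 (c * (D v 2) ^ 2)) := by
    have t := ((((cz 1).add_const c).mul (z1.pow 2)).add (z1.mul tQ)).add tR
    rw [zero_add, mul_zero, add_zero, add_zero] at t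
    refine t.congr' ?_
    filter_upwards [self_mem_nhdsWithin] with s hs
    have hs' : s ≠ 0 := hs
    unfold nf
    field_simp
  have tid : Tendsto (fun s : ℂ => s) (𝓝[≠] 0) (𝓝 0) := nhdsWithin_le_nhds
  have lim2 : Tendsto (fun s : ℂ => nf c Q R (ψ (s • v)) / s ^ 2) (𝓝[≠] 0) (𝓝 0) := by
    have e1 : Tendsto (fun s : ℂ => (nf c Q R (ψ (s • v)) - G30 b d (χ (ψ (s • v)))) / s ^ 2)
        (𝓝[≠] 0) (𝓝 0) := by
      have h1 := hO.comp_tendsto hcont
      have h2 : (fun s : ℂ => ψ (s • v)) =O[𝓝[≠] 0] fun s : ℂ => s := by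
        have := hder.hasFDerivAt.isBigO_sub
        have h3 : (fun s : ℂ => ψ (s • v)) =O[𝓝 0] fun s : ℂ => s := by
          simpa [hψ0] using this
        exact h3.mono nhdsWithin_le_nhds
      have h4 : (fun s : ℂ => nf c Q R (ψ (s • v)) - G30 b d (χ (ψ (s • v)))) =O[𝓝[≠] 0]
          fun s : ℂ => s ^ 10 := by
        refine h1.trans ?_
        have := (h2.norm_left.pow 10)
        exact this
      have h5 : (fun s : ℂ => nf c Q R (ψ (s • v)) - G30 b d (χ (ψ (s • v)))) =o[𝓝[≠] 0]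
          fun s : ℂ => s ^ 2 := by
        refine h4.trans_isLittleO ?_
        exact (isLittleO_pow_pow (𝕜 := ℂ) (show 2 < 10 by norm_num)).mono nhdsWithin_le_nhds
      exact h5.tendsto_div_nhds_zero
    have e2 : Tendsto (fun s : ℂ => s * (v 0 ^ 3 + b * v 0 ^ 2 * v 1 ^ 3 * s ^ 2 +
        v 1 ^ 9 * s ^ 6 + d * v 0 * v 1 ^ 7 * s ^ 5)) (𝓝[≠] 0) (𝓝 0) := by
      have hc : Continuous fun s : ℂ => s * (v 0 ^ 3 + b * v 0 ^ 2 * v 1 ^ 3 * s ^ 2 +
        v 1 ^ 9 * s ^ 6 + d * v 0 * v 1 ^ 7 * s ^ 5) := by fun_prop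
      have := (hc.tendsto 0).mono_left (nhdsWithin_le_nhds (s := {0}ᶜ))
      simpa using this
    have e3 := e1.add e2
    rw [add_zero] at e3
    refine e3.congr' ?_
    have hs0 : Tendsto (fun s : ℂ => s • v) (𝓝[≠] 0) (𝓝 0) := by
      have : Continuous fun s : ℂ => s • v := by fun_prop
      have h1 := (this.tendsto 0).mono_left (nhdsWithin_le_nhds (s := {0}ᶜ))
      simpa using h1
    filter_upwards [self_mem_nhdsWithin, hs0.eventually hright] with s hs hr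
    have hs' : s ≠ 0 := hs
    rw [hr]
    unfold G30
    simp only [Pi.smul_apply, smul_eq_mul, hv2, mul_zero]
    field_simp
    ring
  have := tendsto_nhds_unique lim1 lim2
  rcases mul_eq_zero.mp this with h | h
  · exact hc h
  · exact hμ (pow_eq_zero_iff (by norm_num)|>.mp h)

end Pool.Agent.H32.LU
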