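import Pool.Agent.H15.LU.Targets

/-!
# MP_812e67_ag, module PUA (board lu_modules)
-/

set_option autoImplicit false

namespace Pool.Agent.H32.LU

open Filter Topology Asymptotics Polynomial Pool.Agent.H15.LU

theorem littleO_tendsto {f : ℝ → ℂ} {n : ℕ} (h : f =o[𝓝[>] 0] (fun ν : ℝ => ν ^ n)) :
    Tendsto (fun ν : ℝ => f ν / (ν : ℂ) ^ n) (𝓝[>] 0) (𝓝 0) := by
  have h2 : f =o[𝓝[>] 0] (fun ν : ℝ => (ν : ℂ) ^ n) := by
    refine h.trans_isBigO (isBigO_of_le _ fun ν => ?_)
    simp
  exact h2.tendsto_div_nhds_zero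

theorem ev_pos : ∀ᶠ ν : ℝ in 𝓝[>] 0, (ν : ℂ) ≠ 0 := by
  filter_upwards [self_mem_nhdsWithin] with ν hν
  exact Complex.ofReal_ne_zero.mpr (ne_of_gt hν)

theorem tendsto_cast : Tendsto (fun ν : ℝ => (ν : ℂ)) (𝓝[>] 0) (𝓝 0) := by
  have : Tendsto (fun ν : ℝ => (ν : ℂ)) (𝓝 0) (𝓝 ((0 : ℝ) : ℂ)) :=
    (Complex.continuous_ofReal).tendsto 0
  simpa using this.mono_left nhdsWithin_le_nhds

theorem lim_g (p : ℂ[X]) (m k : ℕ) (h : X ^ (m - k) ∣ p) :
    Tendsto (fun y : ℂ => p.eval y * y ^ k / y ^ m) (𝓝[≠] 0)
      (𝓝 (if k ≤ m then p.coeff (m - k) else 0)) := by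
  by_cases hk : k ≤ m
  · rw [if_pos hk]
    obtain ⟨q, hq⟩ := h
    have h1 : p.coeff (m - k) = q.eval 0 := by
      rw [hq, ← coeff_zero_eq_eval_zero]
      have := coeff_X_pow_mul q (m - k) 0
      simpa using this
    rw [h1]
    have h2 : Tendsto (fun y : ℂ => q.eval y) (𝓝[≠] 0) (𝓝 (q.eval 0)) :=
      (q.continuous.tendsto 0).mono_left nhdsWithin_le_nhds
    refine h2.congr' ?_
    filter_upwards [self_mem_nhdsWithin] with y hy
    have hy' : y ≠ 0 := hy
    rw [hq, eval_mul, eval_pow, eval_X, eq_div_iff (pow_ne_zero _ hy')]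
    have : y ^ m = y ^ (m - k) * y ^ k := by rw [← pow_add, Nat.sub_add_cancel hk]
    rw [this]; ring
  · rw [if_neg hk]
    push Not at hk
    have h2 : Tendsto (fun y : ℂ => p.eval y * y ^ (k - m)) (𝓝[≠] 0) (𝓝 (p.eval 0 * 0 ^ (k - m))) :=
      ((p.continuous.mul (continuous_pow (k - m))).tendsto 0).mono_left nhdsWithin_le_nhds
    rw [zero_pow (by omega), mul_zero] at h2
    refine h2.congr' ?_
    filter_upwards [self_mem_nhdsWithin] with y hy
    have hy' : y ≠ 0 := hy
    rw [eq_div_iff (pow_ne_zero _ hy')]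
    have : y ^ k = y ^ (k - m) * y ^ m := by rw [← pow_add, Nat.sub_add_cancel hk.le]
    rw [this]; ring

theorem evalEval_taylor (W : ℂ[X][X]) (S : ℂ[X]) (x y : ℂ) :
    W.evalEval y x = ∑ r ∈ Finset.range ((taylor S W).natDegree + 1),
      ((taylor S W).coeff r).eval y * (x - S.eval y) ^ r := by
  have h1 : W.evalEval y x = (((taylor S W).eval (C x - S))).eval y := by
    rw [taylor_eval, sub_add_cancel]
  have h2 : (taylor S W).eval (C x - S) = ∑ r ∈ Finset.range ((taylor S W).natDegree + 1),
      (taylor S W).coeff r * (C x - S) ^ r := eval_eq_sum_range _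
  rw [h1, h2, eval_finsetSum]
  apply Finset.sum_congr rfl
  intro r _
  simp

theorem pua : T_PUA := by
  intro W S k hk hyp
  set P := taylor S W with hP
  have main : ∀ m, m < 9 → ∀ r j, j + 3 * r = m → (P.coeff r).coeff j = 0 := by
    intro m
    induction m using Nat.strong_induction_on with
    | _ m ih =>
      intro hm
      have hdvd : ∀ r, (X : ℂ[X]) ^ (m - 3 * r) ∣ P.coeff r := by
        intro r
        rw [X_pow_dvd_iff]
        intro j hj
        exact ih (j + 3 * r) (by omega) (by omega) r j rfl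
      have hV : ∀ a : ℂ, ∑ r ∈ Finset.range (P.natDegree + 1),
          (if 3 * r ≤ m then (P.coeff r).coeff (m - 3 * r) else 0) * a ^ r = 0 := by
        intro a
        obtain ⟨x, y, hx, hy, hW⟩ := hyp a
        have y1 : Tendsto (fun ν : ℝ => y ν / (ν : ℂ) ^ 2) (𝓝[>] 0) (𝓝 k) := by
          have := (littleO_tendsto hy).add_const k
          rw [zero_add] at this
          refine this.congr' ?_
          filter_upwards [ev_pos] with ν hν
          field_simp
          ring
        have y2 : Tendsto y (𝓝[>] 0) (𝓝 0) := by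
          have := y1.mul (tendsto_cast.pow 2)
          rw [zero_pow (by norm_num), mul_zero] at this
          refine this.congr' ?_
          filter_upwards [ev_pos] with ν hν
          field_simp
        have y3 : ∀ᶠ ν : ℝ in 𝓝[>] 0, y ν ≠ 0 := by
          have := y1.eventually_ne hk
          filter_upwards [this] with ν hν h0
          rw [h0] at hν; simp at hν
        have y4 : Tendsto y (𝓝[>] 0) (𝓝[≠] 0) :=
          tendsto_nhdsWithin_iff.mpr ⟨y2, y3⟩
        have T1 : Tendsto (fun ν : ℝ => (x ν - S.eval (y ν)) / y ν ^ 3) (𝓝[>] 0) (𝓝 a) := by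
          have t1 := littleO_tendsto hx
          have t2 : Tendsto (fun ν : ℝ => (y ν / (ν : ℂ) ^ 2) ^ 3) (𝓝[>] 0) (𝓝 (k ^ 3)) := y1.pow 3
          have t3 := (t1.div t2 (pow_ne_zero 3 hk)).add_const a
          rw [zero_div, zero_add] at t3
          refine t3.congr' ?_
          filter_upwards [ev_pos, y3] with ν hν hy0
          simp only [Pi.div_apply]
          field_simp
          ring
        have lhs : Tendsto (fun ν : ℝ => W.evalEval (y ν) (x ν) / y ν ^ m) (𝓝[>] 0)
            (𝓝 (∑ r ∈ Finset.range (P.natDegree + 1),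
              (if 3 * r ≤ m then (P.coeff r).coeff (m - 3 * r) else 0) * a ^ r)) := by
          have t4 : Tendsto (fun ν : ℝ => ∑ r ∈ Finset.range (P.natDegree + 1),
              ((P.coeff r).eval (y ν) * (y ν) ^ (3 * r) / (y ν) ^ m) *
                ((x ν - S.eval (y ν)) / y ν ^ 3) ^ r) (𝓝[>] 0)
              (𝓝 (∑ r ∈ Finset.range (P.natDegree + 1),
                (if 3 * r ≤ m then (P.coeff r).coeff (m - 3 * r) else 0) * a ^ r)) := by
            apply tendsto_finset_sum
            intro r _
            exact ((lim_g (P.coeff r) m (3 * r) (hdvd r)).comp y4).mul (T1.pow r)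
          refine t4.congr' ?_
          filter_upwards [y3] with ν hy0
          rw [evalEval_taylor W S, Finset.sum_div]
          apply Finset.sum_congr rfl
          intro r _
          rw [div_pow, ← pow_mul]
          have e3 : y ν ^ (3 * r) ≠ 0 := pow_ne_zero _ hy0
          have em : y ν ^ m ≠ 0 := pow_ne_zero _ hy0
          have gen : ∀ A B Z E : ℂ, A ≠ 0 → B ≠ 0 → E * A / B * (Z / A) = E * Z / B := by
            intro A B Z E hA hB; field_simp
          exact gen _ _ _ _ e3 em
        have rhs : Tendsto (fun ν : ℝ => W.evalEval (y ν) (x ν) / y ν ^ m) (𝓝[>] 0) (𝓝 0) := by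
          have o1 : (fun ν : ℝ => W.evalEval (y ν) (x ν)) =o[𝓝[>] 0]
              (fun ν : ℝ => ν ^ (2 * m)) := by
            refine hW.trans_isLittleO ?_
            have : (fun ν : ℝ => ν ^ 18) =o[𝓝 0] (fun ν : ℝ => ν ^ (2 * m)) :=
              isLittleO_pow_pow (by omega)
            exact this.mono nhdsWithin_le_nhds
          have t5 := (littleO_tendsto o1).div (y1.pow m) (pow_ne_zero m hk)
          rw [zero_div] at t5
          refine t5.congr' ?_
          filter_upwards [ev_pos, y3] with ν hν hy0
          simp only [Pi.div_apply]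
          rw [div_pow, ← pow_mul]
          field_simp
        exact tendsto_nhds_unique lhs rhs
      intro r j hrj
      by_cases hr : r ∈ Finset.range (P.natDegree + 1)
      · set V : ℂ[X] := ∑ r ∈ Finset.range (P.natDegree + 1),
          C (if 3 * r ≤ m then (P.coeff r).coeff (m - 3 * r) else 0) * X ^ r with hVd
        have hV0 : V = 0 := by
          apply Polynomial.funext
          intro a
          rw [hVd, eval_finsetSum, eval_zero]
          refine (Finset.sum_congr rfl ?_).trans (hV a)
          intro r _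
          rw [eval_mul, eval_C, eval_pow, eval_X]
        have hc : V.coeff r = if 3 * r ≤ m then (P.coeff r).coeff (m - 3 * r) else 0 := by
          rw [hVd, finsetSum_coeff]
          simp only [coeff_C_mul, coeff_X_pow]
          rw [Finset.sum_eq_single r]
          · simp
          · intro b _ hb
            rw [if_neg (show ¬ (r = b) from fun h => hb h.symm), mul_zero]
          · intro h; exact absurd hr h
        rw [hV0, coeff_zero, if_pos (by omega)] at hc
        have : j = m - 3 * r := by omega
        rw [this]; exact hc.symm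
      · rw [Finset.mem_range] at hr
        push Not at hr
        have h0 : P.coeff r = 0 := coeff_eq_zero_of_natDegree_lt (by omega)
        rw [h0, coeff_zero]
  intro r
  rw [X_pow_dvd_iff]
  intro j hj
  exact main (j + 3 * r) (by omega) r j rfl

end Pool.Agent.H32.LU
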