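import Pool.Agent.H32.LU.PUA

/-!
# MP_812e67_ag, module PUB (board lu_modules)
-/

set_option autoImplicit false

namespace Pool.Agent.H32.LU

open Filter Topology Asymptotics Polynomial Pool.Agent.H15.LU

theorem littleO_of {f : ℝ → ℂ} {n : ℕ}
    (h : Tendsto (fun ν : ℝ => f ν / (ν : ℂ) ^ n) (𝓝[>] 0) (𝓝 0)) :
    f =o[𝓝[>] 0] (fun ν : ℝ => ν ^ n) := by
  have h2 : f =o[𝓝[>] 0] (fun ν : ℝ => (ν : ℂ) ^ n) := by
    refine (isLittleO_iff_tendsto' ?_).2 h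
    filter_upwards [ev_pos] with ν hν h0
    exact absurd h0 (pow_ne_zero _ hν)
  refine h2.trans_isBigO (isBigO_of_le _ fun ν => ?_)
  simp

theorem expand (A1 A2 A3 C1 C2 C3 β γ a v : ℂ) (h1 : C1 = β * A1)
    (h2 : C2 = β * A2 + γ * A1 ^ 2) (h3 : C3 = β * A3 + 2 * γ * A1 * A2 + a * A1 ^ 3) :
    (C1 * v + C2 * v ^ 2 + C3 * v ^ 3) - β * (A1 * v + A2 * v ^ 2 + A3 * v ^ 3) -
      γ * (A1 * v + A2 * v ^ 2 + A3 * v ^ 3) ^ 2 - a * (A1 * v + A2 * v ^ 2 + A3 * v ^ 3) ^ 3 =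
    v ^ 4 * (-(γ * ((A2 ^ 2 + 2 * A1 * A3) + 2 * A2 * A3 * v + A3 ^ 2 * v ^ 2)) -
      a * (3 * A1 ^ 2 * A2 + (3 * A1 * A2 ^ 2 + 3 * A1 ^ 2 * A3) * v +
        (A2 ^ 3 + 6 * A1 * A2 * A3) * v ^ 2 + (3 * A2 ^ 2 * A3 + 3 * A1 * A3 ^ 2) * v ^ 3 +
        3 * A2 * A3 ^ 2 * v ^ 4 + A3 ^ 3 * v ^ 5)) := by
  rw [h1, h2, h3]; ring

theorem pub : T_PUB := by
  intro k₁ k₂ k₃ k hdet hk
  set β := k₁.1 / k₁.2 with hβ
  have hdet' : k.1 - β * k.2 ≠ 0 := by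
    intro h
    apply hdet
    have : (k.1 - β * k.2) * k₁.2 = k.1 * k₁.2 - k.2 * k₁.1 := by
      rw [hβ]; field_simp
    rw [← this, h, zero_mul]
  set γ := (k₂.1 - β * k₂.2) / k₁.2 ^ 2 with hγ
  refine ⟨γ, ?_⟩
  intro a'
  set s0 := k₃.1 - β * k₃.2 - 2 * γ * k₁.2 * k₂.2 with hs0
  refine ⟨(a' * k₁.2 ^ 3 - s0) / (k.1 - β * k.2), ?_⟩
  set a := (a' * k₁.2 ^ 3 - s0) / (k.1 - β * k.2) with ha
  intro x y hx hy
  have h1 : k₁.1 = β * k₁.2 := by rw [hβ]; field_simp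
  have h2 : k₂.1 = β * k₂.2 + γ * k₁.2 ^ 2 := by rw [hγ]; field_simp; ring
  have h3 : k₃.1 + a * k.1 = β * (k₃.2 + a * k.2) + 2 * γ * k₁.2 * k₂.2 + a' * k₁.2 ^ 3 := by
    have : a * (k.1 - β * k.2) = a' * k₁.2 ^ 3 - s0 := by rw [ha]; field_simp
    rw [hs0] at this
    linear_combination this
  set A1 := k₁.2
  set A2 := k₂.2
  set A3 := k₃.2 + a * k.2
  set C1 := k₁.1
  set C2 := k₂.1
  set C3 := k₃.1 + a * k.1
  set B : ℂ → ℂ := fun v => (-(γ * ((A2 ^ 2 + 2 * A1 * A3) + 2 * A2 * A3 * v + A3 ^ 2 * v ^ 2)) -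
      a' * (3 * A1 ^ 2 * A2 + (3 * A1 * A2 ^ 2 + 3 * A1 ^ 2 * A3) * v +
        (A2 ^ 3 + 6 * A1 * A2 * A3) * v ^ 2 + (3 * A2 ^ 2 * A3 + 3 * A1 * A3 ^ 2) * v ^ 3 +
        3 * A2 * A3 ^ 2 * v ^ 4 + A3 ^ 3 * v ^ 5)) with hB
  have hBc : Continuous B := by rw [hB]; fun_prop
  set y0 : ℝ → ℂ := fun ν => A1 * (ν : ℂ) ^ 2 + A2 * (ν : ℂ) ^ 4 + A3 * (ν : ℂ) ^ 6 with hy0
  set x0 : ℝ → ℂ := fun ν => C1 * (ν : ℂ) ^ 2 + C2 * (ν : ℂ) ^ 4 + C3 * (ν : ℂ) ^ 6 with hx0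
  have tX := littleO_tendsto hx
  have tY := littleO_tendsto hy
  have ty0 : Tendsto y0 (𝓝[>] 0) (𝓝 0) := by
    have := (((tendsto_cast.pow 2).const_mul A1).add ((tendsto_cast.pow 4).const_mul A2)).add
      ((tendsto_cast.pow 6).const_mul A3)
    simpa using this
  have ty : Tendsto y (𝓝[>] 0) (𝓝 0) := by
    have := (tY.mul (tendsto_cast.pow 6)).add ty0
    simp only [zero_mul, add_zero] at this
    refine this.congr' ?_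
    filter_upwards [ev_pos] with ν hν
    rw [hy0]
    field_simp
    ring
  have tB : Tendsto (fun ν : ℝ => (ν : ℂ) ^ 2 * B ((ν : ℂ) ^ 2)) (𝓝[>] 0) (𝓝 0) := by
    have hc : Continuous fun z : ℂ => z ^ 2 * B (z ^ 2) := by fun_prop
    have := (hc.tendsto 0).comp tendsto_cast
    have h0 : (0 : ℂ) ^ 2 * B (0 ^ 2) = 0 := by ring
    rw [h0] at this
    exact this
  refine ⟨littleO_of ?_, littleO_of ?_⟩
  · have t := (((tX.sub (tY.const_mul β)).sub ((tY.mul (ty.add ty0)).const_mul γ)).sub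
      ((tY.mul (((ty.pow 2).add (ty.mul ty0)).add (ty0.pow 2))).const_mul a')).add tB
    simp only [mul_zero, sub_zero, add_zero, zero_mul] at t
    refine t.congr' ?_
    filter_upwards [ev_pos] with ν hν
    have e1 := expand A1 A2 A3 C1 C2 C3 β γ a' ((ν : ℂ) ^ 2) h1 h2 h3
    have e2 : (ν : ℂ) ^ 2 * B ((ν : ℂ) ^ 2) =
        (x0 ν - β * y0 ν - γ * y0 ν ^ 2 - a' * y0 ν ^ 3) / (ν : ℂ) ^ 6 := by
      rw [eq_div_iff (pow_ne_zero _ hν)]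
      rw [hB, hx0, hy0]
      simp only
      linear_combination -e1
    rw [e2]
    have e3 : eval (y ν) (SS β γ) = β * y ν + γ * y ν ^ 2 := by simp [SS]
    rw [e3]
    have e4 : C1 * (ν : ℂ) ^ 2 + C2 * (ν : ℂ) ^ 4 + C3 * (ν : ℂ) ^ 6 = x0 ν := rfl
    have e5 : A1 * (ν : ℂ) ^ 2 + A2 * (ν : ℂ) ^ 4 + A3 * (ν : ℂ) ^ 6 = y0 ν := rfl
    rw [e4, e5]
    field_simp
    ring
  · have t := (tY.mul (tendsto_cast.pow 4)).add (((tendsto_cast.pow 2).const_mul A2).add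
      ((tendsto_cast.pow 4).const_mul A3))
    simp only [ne_eq, OfNat.ofNat_ne_zero, not_false_eq_true, zero_pow, mul_zero, add_zero] at t
    refine t.congr' ?_
    filter_upwards [ev_pos] with ν hν
    field_simp
    ring

end Pool.Agent.H32.LU
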