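import Pool.Agent.H15.LU.Targets

/-!
# MP_812e67_ag, module PUC (board lu_modules)
-/

set_option autoImplicit false

namespace Pool.Agent.H32.LU

open Filter Topology Asymptotics Polynomial Pool.Agent.H15.LU

theorem puc : T_PUC := by
  intro W W' γ hW hD
  rw [← hW 0 4]
  have hS : SS 0 γ = C γ * X ^ 2 := by simp [SS]
  have h1 : W'.coeff 0 = (taylor (SS 0 γ) W').eval (-(SS 0 γ)) := by
    rw [taylor_eval, coeff_zero_eq_eval_zero]; simp
  have h6 : (X : ℂ[X]) ^ 6 ∣ W'.coeff 0 := by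
    rw [h1, eval_eq_sum, Polynomial.sum_def]
    apply Finset.dvd_sum
    intro r _
    have hr := hD r
    have h2 : (X : ℂ[X]) ^ (2 * r) ∣ (-(SS 0 γ)) ^ r := by
      rw [hS, neg_pow, mul_pow, ← pow_mul]
      exact Dvd.intro_left ((-1) ^ r * (C γ) ^ r) (by ring)
    have h3 : (X : ℂ[X]) ^ ((9 - 3 * r) + 2 * r) ∣
        (taylor (SS 0 γ) W').coeff r * (-(SS 0 γ)) ^ r := by
      rw [pow_add]; exact mul_dvd_mul hr h2
    refine dvd_trans (pow_dvd_pow _ ?_) h3
    omega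
  rw [X_pow_dvd_iff] at h6
  exact h6 4 (by norm_num)

end Pool.Agent.H32.LU
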