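import Pool.Agent.H15.LU.Targets

/-!
# MP_812e67_ag, module PUI (board lu_modules)
-/

set_option autoImplicit false

namespace Pool.Agent.H32.LU

open Filter Topology Asymptotics Polynomial Pool.Agent.H15.LU

theorem coeff_swap (W : ℂ[X][X]) (i j : ℕ) :
    ((Bivariate.swap W).coeff i).coeff j = (W.coeff j).coeff i := by
  induction W using Polynomial.induction_on' with
  | add p q hp hq => simp only [map_add, coeff_add, hp, hq]
  | monomial n f =>
    induction f using Polynomial.induction_on' with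
    | add p q hp hq => simp only [map_add, coeff_add, hp, hq]
    | monomial m r =>
      rw [Bivariate.swap_monomial_monomial]
      simp only [coeff_monomial]
      split_ifs <;> simp_all [coeff_monomial]

theorem evalEval_swap (W : ℂ[X][X]) (x y : ℂ) :
    (Bivariate.swap W).evalEval x y = W.evalEval y x := by
  induction W using Polynomial.induction_on' with
  | add p q hp hq => simp only [map_add, evalEval_add, hp, hq]
  | monomial n f =>
    induction f using Polynomial.induction_on' with
    | add p q hp hq => simp only [map_add, evalEval_add, hp, hq]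
    | monomial m r =>
      rw [Bivariate.swap_monomial_monomial]
      simp only [evalEval, eval_monomial, eval_mul, eval_pow, eval_C]
      ring

theorem pui (h1 : T_PUA) (h2 : T_PUB) (h3 : T_PUC) : T_PUI := by
  intro W hW
  obtain ⟨k₁, k₂, k₃, k, hdet, harc⟩ := hW
  by_cases hk : k₁.2 = 0
  · left
    rw [hk, mul_zero, zero_sub, neg_ne_zero] at hdet
    have hk1 : k₁.1 ≠ 0 := right_ne_zero_of_mul hdet
    have hk2 : k.2 ≠ 0 := left_ne_zero_of_mul hdet
    obtain ⟨γ, hγ⟩ := h2 (k₁.2, k₁.1) (k₂.2, k₂.1) (k₃.2, k₃.1) (k.2, k.1)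
      (by rw [hk]; simpa using ⟨hk2, hk1⟩) hk1
    have h0 : k₁.2 / k₁.1 = 0 := by rw [hk, zero_div]
    simp only [h0] at hγ
    have hD : DivAt (Bivariate.swap W) (SS 0 γ) := by
      apply h1 (Bivariate.swap W) (SS 0 γ) k₁.1 hk1
      intro a'
      obtain ⟨a, ha⟩ := hγ a'
      obtain ⟨x, y, hx, hy, hw⟩ := harc a
      obtain ⟨g1, g2⟩ := ha y x hy hx
      refine ⟨y, x, g1, g2, ?_⟩
      refine hw.congr_left ?_
      intro ν
      exact (evalEval_swap _ _ _).symm
    exact h3 W (Bivariate.swap W) γ (fun i j => coeff_swap _ _ _) hD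
  · right
    obtain ⟨γ, hγ⟩ := h2 k₁ k₂ k₃ k hdet hk
    refine ⟨k₁.1 / k₁.2, γ, ?_⟩
    apply h1 W (SS (k₁.1 / k₁.2) γ) k₁.2 hk
    intro a'
    obtain ⟨a, ha⟩ := hγ a'
    obtain ⟨x, y, hx, hy, hw⟩ := harc a
    obtain ⟨g1, g2⟩ := ha x y hx hy
    exact ⟨x, y, g1, g2, hw⟩

end Pool.Agent.H32.LU
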